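import Pool.Agent.H65.CM4.Targets1

/-! BXC: the number of points in a box. -/

set_option autoImplicit false

open MeasureTheory Set Filter NumberField NumberField.InfinitePlace Pool.Agent.H65.CM4
open scoped Real

namespace Pool.Agent.H37.CM4

variable (k : Type) [Field k] [NumberField k] [IsTotallyReal k]

theorem pf_BXC (hEMB : T_EMB k) (hBAL : T_BAL k) : T_BXC k := by
  classical
  obtain ⟨hcard, hn, -, -, -, hmul, -, hunit, -, -, -, -⟩ := hEMB
  obtain ⟨C0, hC0, hbal⟩ := hBAL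
  have hK1 : (1 : ℝ) ≤ (2 * (1 + 2 * C0)) ^ dg k := one_le_pow₀ (by linarith)
  refine ⟨(2 * (1 + 2 * C0)) ^ dg k, hK1, fun m g F hm hg hF => ?_⟩
  have hP : 0 ≤ ∏ v, g v := Finset.prod_nonneg fun v _ => hg v
  have hR1 : (1 : ℝ) ≤ 1 + (∏ v : Pl k, g v) / m := by
    have := div_nonneg hP hm.le
    linarith
  have hR : (1 : ℝ) ≤ (2 * (1 + 2 * C0)) ^ dg k * (1 + (∏ v : Pl k, g v) / m) := by
    nlinarith
  by_cases hz : ∃ v, g v = 0
  · obtain ⟨v, hv⟩ := hz
    have h1 : F.card ≤ 1 := by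
      rw [Finset.card_le_one]
      intro x hx y hy
      by_contra hxy
      have h2 := (hF x hx y hy hxy).2 v
      rw [hv] at h2
      have h3 : rv v (x - y) = 0 := abs_eq_zero.1 (le_antisymm h2 (abs_nonneg _))
      exact hxy (sub_eq_zero.1 ((map_eq_zero (rv v)).1 h3))
    have h2 : (F.card : ℝ) ≤ 1 := by exact_mod_cast h1
    exact h2.trans hR
  have hgp : ∀ v, 0 < g v := fun v => lt_of_le_of_ne (hg v) fun h => hz ⟨v, h.symm⟩
  have hPp : 0 < ∏ v, g v := Finset.prod_pos fun v _ => hgp v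
  have hnR : (0 : ℝ) < (dg k : ℝ) := by exact_mod_cast hn
  rcases F.eq_empty_or_nonempty with rfl | ⟨x0, hx0⟩
  · simp only [Finset.card_empty, Nat.cast_zero]
    linarith
  obtain ⟨u, hu⟩ := hbal g hgp
  set G : ℝ := (∏ v' : Pl k, g v') ^ (1 / (dg k : ℝ)) with hG
  set s : ℝ := m ^ (1 / (dg k : ℝ)) with hs
  have hGp : 0 < G := Real.rpow_pos_of_pos hPp _
  have hsp : 0 < s := Real.rpow_pos_of_pos hm _
  have hGn : G ^ dg k = ∏ v, g v := by
    rw [hG, ← Real.rpow_natCast, ← Real.rpow_mul hPp.le, one_div_mul_cancel hnR.ne', Real.rpow_one]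
  have hsn : s ^ dg k = m := by
    rw [hs, ← Real.rpow_natCast, ← Real.rpow_mul hm.le, one_div_mul_cancel hnR.ne', Real.rpow_one]
  set T : ℝ := 2 * (C0 * G) / s with hT
  have hT0 : 0 ≤ T := by positivity
  let φ : k → (Pl k → ℤ) := fun x v => ⌊2 * rv v (((u : 𝓞 k) : k) * (x - x0)) / s⌋
  have hbox : ∀ x ∈ F, ∀ v, |rv v (((u : 𝓞 k) : k) * (x - x0))| ≤ C0 * G := by
    intro x hx v
    rw [map_mul, abs_mul]
    have h1 : |rv v (x - x0)| ≤ g v := by
      by_cases h : x = x0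
      · rw [h, sub_self, map_zero, abs_zero]
        exact hg v
      · exact (hF x hx x0 hx0 h).2 v
    exact (mul_le_mul_of_nonneg_left h1 (abs_nonneg _)).trans (hu v).2
  have hmem : ∀ x ∈ F, φ x ∈ Fintype.piFinset fun _ : Pl k => Finset.Icc ⌊-T⌋ ⌊T⌋ := by
    intro x hx
    rw [Fintype.mem_piFinset]
    intro v
    rw [Finset.mem_Icc]
    have h1 := abs_le.1 (hbox x hx v)
    constructor
    · refine Int.floor_le_floor ?_
      rw [hT, ← neg_div]
      exact div_le_div_of_nonneg_right (by linarith) hsp.le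
    · refine Int.floor_le_floor ?_
      exact div_le_div_of_nonneg_right (by linarith) hsp.le
  have hinj : Set.InjOn φ (F : Set k) := by
    intro x hx y hy hxy
    by_contra hne
    have h1 : ∀ v, |rv v (((u : 𝓞 k) : k) * (x - y))| ≤ s / 2 := by
      intro v
      have h2 : ⌊2 * rv v (((u : 𝓞 k) : k) * (x - x0)) / s⌋ =
          ⌊2 * rv v (((u : 𝓞 k) : k) * (y - x0)) / s⌋ := congrFun hxy v
      have h3 := Int.abs_sub_lt_one_of_floor_eq_floor h2
      have h4 : 2 * rv v (((u : 𝓞 k) : k) * (x - x0)) / s -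
          2 * rv v (((u : 𝓞 k) : k) * (y - x0)) / s =
          2 * rv v (((u : 𝓞 k) : k) * (x - y)) / s := by
        rw [← sub_div, ← mul_sub, ← map_sub]
        congr 3
        ring
      rw [h4, abs_div, abs_mul, abs_of_pos hsp, div_lt_one hsp, abs_two] at h3
      linarith
    have h5 : m ≤ Nr (((u : 𝓞 k) : k) * (x - y)) := by
      rw [hmul, hunit, one_mul]
      exact (hF x hx y hy hne).1
    have h6 : Nr (((u : 𝓞 k) : k) * (x - y)) ≤ (s / 2) ^ dg k := by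
      unfold Nr
      rw [← hcard, ← Finset.card_univ]
      refine (Finset.prod_le_prod (fun v _ => abs_nonneg _) (fun v _ => h1 v)).trans ?_
      rw [Finset.prod_const]
    have h7 : (s / 2) ^ dg k < m := by
      rw [div_pow, hsn]
      exact div_lt_self hm (one_lt_pow₀ one_lt_two hn.ne')
    linarith
  have hcard1 : F.card ≤ (Fintype.piFinset fun _ : Pl k => Finset.Icc ⌊-T⌋ ⌊T⌋).card :=
    Finset.card_le_card_of_injOn φ hmem hinj
  rw [Fintype.card_piFinset, Finset.prod_const, Finset.card_univ, hcard] at hcard1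
  have hIcc : ((Finset.Icc ⌊-T⌋ ⌊T⌋).card : ℝ) ≤ 2 * (1 + T) := by
    rw [Int.card_Icc]
    have h1 : (⌊-T⌋ : ℤ) ≤ ⌊T⌋ := Int.floor_le_floor (by linarith)
    have h2 : (((⌊T⌋ + 1 - ⌊-T⌋).toNat : ℕ) : ℝ) = (⌊T⌋ : ℝ) + 1 - (⌊-T⌋ : ℝ) := by
      have h3 : (((⌊T⌋ + 1 - ⌊-T⌋).toNat : ℕ) : ℤ) = ⌊T⌋ + 1 - ⌊-T⌋ :=
        Int.toNat_of_nonneg (by omega)
      have h4 : ((((⌊T⌋ + 1 - ⌊-T⌋).toNat : ℕ) : ℤ) : ℝ) = ((⌊T⌋ + 1 - ⌊-T⌋ : ℤ) : ℝ) := by
        rw [h3]
      push_cast at h4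
      exact_mod_cast h4
    rw [h2]
    have h5 := Int.floor_le T
    have h6 := Int.lt_floor_add_one (-T)
    linarith
  have h8 : (F.card : ℝ) ≤ (2 * (1 + T)) ^ dg k := by
    have h1 : (F.card : ℝ) ≤ ((Finset.Icc ⌊-T⌋ ⌊T⌋).card : ℝ) ^ dg k := by exact_mod_cast hcard1
    exact h1.trans (pow_le_pow_left₀ (Nat.cast_nonneg _) hIcc _)
  refine h8.trans ?_
  set a : ℝ := G / s with ha
  have ha0 : 0 ≤ a := by positivity
  have hTa : T = 2 * C0 * a := by rw [hT, ha]; ring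
  have han : a ^ dg k = (∏ v, g v) / m := by rw [ha, div_pow, hGn, hsn]
  have h9 : 2 * (1 + T) ≤ 2 * (1 + 2 * C0) * max 1 a := by
    rw [hTa]
    have h1 : (1 : ℝ) ≤ max 1 a := le_max_left _ _
    have h2 : a ≤ max 1 a := le_max_right _ _
    nlinarith
  calc (2 * (1 + T)) ^ dg k ≤ (2 * (1 + 2 * C0) * max 1 a) ^ dg k :=
        pow_le_pow_left₀ (by linarith) h9 _
    _ = (2 * (1 + 2 * C0)) ^ dg k * (max 1 a) ^ dg k := mul_pow _ _ _
    _ ≤ (2 * (1 + 2 * C0)) ^ dg k * (1 + (∏ v : Pl k, g v) / m) := by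
        refine mul_le_mul_of_nonneg_left ?_ (by positivity)
        rw [← han]
        rcases max_cases 1 a with ⟨h, -⟩ | ⟨h, -⟩
        · rw [h, one_pow]
          have := pow_nonneg ha0 (dg k)
          linarith
        · rw [h]
          linarith

end Pool.Agent.H37.CM4
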